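import Pool.Agent.H48.LW.Scalar

/-!
The cost of the certificate is at most `2` (MP_642cb2_an).
-/

open Matrix Finset

namespace Pool.Agent.H48.LW

variable {n : ℕ}

theorem cost_le_two (M : Matrix (Fin n) (Fin n) ℝ) (z : ℝ) (r : Fin n → ℝ) (i j : Fin n)
    (hij : i ≠ j) (hM : Mᵀ * M + M * Mᵀ = diagonal r) (hx : M i i + M j j = 0)
    (h1 : r j ≤ r i) (h2 : ∀ a, a ≠ i → r a ≤ r j)
    (h3 : ∑ a, ∑ b, ((M + z • (1 : Matrix (Fin n) (Fin n) ℝ)) a b) ^ 2 = 1) :
    ∑ a, ∑ b, (1 - 1 / max 1 (r a + r b)) * ((r a + r b) / 2 - 2 * (M a a * M b b)) ≤ 2 := by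
  classical
  change ∑ a, ∑ b, phi (r a + r b) * ((r a + r b) / 2 - 2 * (M a a * M b b)) ≤ 2
  have hr : ∀ a, r a = ∑ k, (M k a ^ 2 + M a k ^ 2) := by
    intro a
    have := congrFun (congrFun hM a) a
    rw [Matrix.diagonal_apply_eq] at this
    rw [← this, Matrix.add_apply, Matrix.mul_apply, Matrix.mul_apply, Finset.sum_add_distrib]
    simp [sq]
  set L := r i with hLdef
  set m := r j with hmdef
  have hle : ∀ a, r a ≤ L := by
    intro a
    by_cases h : a = i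
    · rw [h]
    · exact (h2 a h).trans h1
  rcases le_or_gt L (1 / 2) with hL | hL
  · refine le_trans (le_of_eq ?_) (show (0 : ℝ) ≤ 2 by norm_num)
    refine Finset.sum_eq_zero fun a _ => Finset.sum_eq_zero fun b _ => ?_
    rw [phi_of_le (by linarith [hle a, hle b]), zero_mul]
  let G : Finset (Fin n) := (Finset.univ.erase i).erase j
  have hGi : ∀ g ∈ G, g ≠ i := fun g hg => by
    simp only [G, Finset.mem_erase] at hg; exact hg.2.1
  have hGj : ∀ g ∈ G, g ≠ j := fun g hg => by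
    simp only [G, Finset.mem_erase] at hg; exact hg.1
  have split : ∀ f : Fin n → ℝ, ∑ a, f a = f i + f j + ∑ a ∈ G, f a := by
    intro f
    rw [← Finset.add_sum_erase Finset.univ f (Finset.mem_univ i),
      ← Finset.add_sum_erase (Finset.univ.erase i) f
        (Finset.mem_erase.mpr ⟨hij.symm, Finset.mem_univ j⟩), add_assoc]
  set ξ := M i i with hξdef
  have hxj : M j j = -ξ := by linarith
  let w : Fin n → ℝ := fun g => -(M g g + z)
  let β : Fin n → ℝ := fun g => M i g ^ 2 + M g i ^ 2 + M j g ^ 2 + M g j ^ 2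
  let o : Fin n → ℝ := fun g => ∑ h ∈ G.erase g, (M g h ^ 2 + M h g ^ 2)
  let b : ℝ := ∑ g ∈ G, (M j g ^ 2 + M g j ^ 2)
  let b' : ℝ := ∑ g ∈ G, (M i g ^ 2 + M g i ^ 2)
  let τ : ℝ := ∑ g ∈ G, ∑ h ∈ G, ((M + z • (1 : Matrix (Fin n) (Fin n) ℝ)) g h) ^ 2
  have hβ0 : ∀ g, 0 ≤ β g := fun g => by simp only [β]; positivity
  have ho0 : ∀ g, 0 ≤ o g := fun g => Finset.sum_nonneg fun h _ => by positivity
  have hb0 : 0 ≤ b := Finset.sum_nonneg fun h _ => by positivity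
  have hrg : ∀ g ∈ G, r g = 2 * (w g + z) ^ 2 + β g + o g := by
    intro g hg
    rw [hr g, split, ← Finset.add_sum_erase G _ hg]
    have : ∑ x ∈ G.erase g, (M x g ^ 2 + M g x ^ 2) = o g := by
      simp only [o]
      exact Finset.sum_congr rfl fun h _ => by ring
    rw [this]
    simp only [w, β]
    ring
  have hLe : L = 2 * ξ ^ 2 + (M i j ^ 2 + M j i ^ 2) + b' := by
    rw [hLdef, hr i, split]
    have : ∑ x ∈ G, (M x i ^ 2 + M i x ^ 2) = b' := by
      simp only [b']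
      exact Finset.sum_congr rfl fun h _ => by ring
    rw [this, hξdef]
    ring
  have hme : m = 2 * ξ ^ 2 + (M i j ^ 2 + M j i ^ 2) + b := by
    rw [hmdef, hr j, split, hxj]
    have : ∑ x ∈ G, (M x j ^ 2 + M j x ^ 2) = b := by
      simp only [b]
      exact Finset.sum_congr rfl fun h _ => by ring
    rw [this]
    ring
  have hβsum : ∑ g ∈ G, β g = 2 * b + (L - m) := by
    have : ∑ g ∈ G, β g = b' + b := by
      simp only [β, b, b', ← Finset.sum_add_distrib]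
      exact Finset.sum_congr rfl fun h _ => by ring
    rw [this, hLe, hme]
    ring
  have hX : ∀ a c, a ≠ c → (M + z • (1 : Matrix (Fin n) (Fin n) ℝ)) a c = M a c := by
    intro a c hac
    simp [Matrix.one_apply_ne hac]
  have hXd : ∀ a, (M + z • (1 : Matrix (Fin n) (Fin n) ℝ)) a a = M a a + z := by
    intro a
    simp
  have hτe : ∀ g ∈ G, ∑ h ∈ G, ((M + z • (1 : Matrix (Fin n) (Fin n) ℝ)) g h) ^ 2
      = w g ^ 2 + ∑ h ∈ G.erase g, M g h ^ 2 := by
    intro g hg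
    rw [← Finset.add_sum_erase G _ hg, hXd]
    congr 1
    · simp only [w]; ring
    · refine Finset.sum_congr rfl fun h hh => ?_
      rw [hX g h (Ne.symm (Finset.mem_erase.mp hh).1)]
  have hW : ∑ g ∈ G, (2 * w g ^ 2 + o g) = 2 * τ := by
    have e1 : τ = ∑ g ∈ G, (w g ^ 2 + ∑ h ∈ G.erase g, M g h ^ 2) :=
      Finset.sum_congr rfl hτe
    have e2 : ∑ g ∈ G, ∑ h ∈ G.erase g, M h g ^ 2 = ∑ g ∈ G, ∑ h ∈ G.erase g, M g h ^ 2 := by
      have c1 : ∀ g ∈ G, ∑ h ∈ G.erase g, M h g ^ 2 = ∑ h ∈ G, M h g ^ 2 - M g g ^ 2 := by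
        intro g hg
        rw [← Finset.add_sum_erase G _ hg]; ring
      have c2 : ∀ g ∈ G, ∑ h ∈ G.erase g, M g h ^ 2 = ∑ h ∈ G, M g h ^ 2 - M g g ^ 2 := by
        intro g hg
        rw [← Finset.add_sum_erase G _ hg]; ring
      rw [Finset.sum_congr rfl c1, Finset.sum_congr rfl c2, Finset.sum_sub_distrib,
        Finset.sum_sub_distrib, Finset.sum_comm]
    have e3 : ∑ g ∈ G, o g = 2 * ∑ g ∈ G, ∑ h ∈ G.erase g, M g h ^ 2 := by
      simp only [o, Finset.sum_add_distrib]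
      rw [e2]; ring
    rw [e1, Finset.sum_add_distrib, Finset.sum_add_distrib, e3, ← Finset.mul_sum]
    ring
  have hnorm : 2 * ξ ^ 2 + 2 * z ^ 2 + (M i j ^ 2 + M j i ^ 2) + b' + b + τ = 1 := by
    rw [← h3, split]
    rw [split (fun b => ((M + z • (1 : Matrix (Fin n) (Fin n) ℝ)) i b) ^ 2),
      split (fun b => ((M + z • (1 : Matrix (Fin n) (Fin n) ℝ)) j b) ^ 2)]
    have e1 : ∀ g ∈ G, ∑ b, ((M + z • (1 : Matrix (Fin n) (Fin n) ℝ)) g b) ^ 2
        = M g i ^ 2 + M g j ^ 2 + ∑ h ∈ G, ((M + z • (1 : Matrix (Fin n) (Fin n) ℝ)) g h) ^ 2 := by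
      intro g hg
      rw [split, hX g i (hGi g hg), hX g j (hGj g hg)]
    rw [Finset.sum_congr rfl e1]
    have e2 : ∑ a ∈ G, ((M + z • (1 : Matrix (Fin n) (Fin n) ℝ)) i a) ^ 2 = ∑ a ∈ G, M i a ^ 2 :=
      Finset.sum_congr rfl fun g hg => by rw [hX i g (hGi g hg).symm]
    have e3 : ∑ a ∈ G, ((M + z • (1 : Matrix (Fin n) (Fin n) ℝ)) j a) ^ 2 = ∑ a ∈ G, M j a ^ 2 :=
      Finset.sum_congr rfl fun g hg => by rw [hX j g (hGj g hg).symm]
    rw [e2, e3, hX i j hij, hX j i hij.symm, hXd, hXd, hxj, ← hξdef]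
    simp only [b, b', τ, Finset.sum_add_distrib]
    ring
  have hLθ : L = 1 - (2 * z ^ 2 + τ + b) := by rw [hLe]; linarith
  have hξm : 2 * ξ ^ 2 ≤ m := by
    rw [hme]
    have : 0 ≤ M i j ^ 2 + M j i ^ 2 := by positivity
    linarith
  let E : Finset (Fin n) := G.filter fun g => 1 < L + r g
  have hEG : E ⊆ G := Finset.filter_subset _ _
  have hE : ∀ g ∈ G, g ∉ E → L + r g ≤ 1 := by
    intro g hg hgE
    by_contra hcon
    exact hgE (Finset.mem_filter.mpr ⟨hg, not_le.mp hcon⟩)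
  have main := main_abs E w β o r (z := z) (τ := τ) (b := b) (L := L) (m := m) (ξ := ξ)
    (fun g _ => hβ0 g) (fun g _ => ho0 g) hb0 h1 hLθ hξm
    (by rw [← hβsum]; exact Finset.sum_le_sum_of_subset_of_nonneg hEG fun g _ _ => hβ0 g)
    (by rw [← hW]; exact Finset.sum_le_sum_of_subset_of_nonneg hEG fun g _ _ => by
          have := ho0 g; positivity)
    (fun g hg => hrg g (hEG hg)) (fun g hg => h2 g (hGi g (hEG hg)))
    (fun g hg => (Finset.mem_filter.mp hg).2) hL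
  refine le_trans (le_of_eq ?_) main
  -- split the double sum
  have rowi : ∑ b, phi (L + r b) * ((L + r b) / 2 - 2 * (ξ * M b b))
      = phi (L + L) * ((L + L) / 2 - 2 * (ξ * ξ)) + phi (L + m) * ((L + m) / 2 - 2 * (ξ * (-ξ)))
        + ∑ g ∈ G, phi (L + r g) * ((L + r g) / 2 - 2 * (ξ * M g g)) := by
    rw [split, hxj]
  have rowj : ∑ b, phi (m + r b) * ((m + r b) / 2 - 2 * ((-ξ) * M b b))
      = phi (m + L) * ((m + L) / 2 - 2 * ((-ξ) * ξ))
        + phi (m + m) * ((m + m) / 2 - 2 * ((-ξ) * (-ξ)))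
        + ∑ g ∈ G, phi (m + r g) * ((m + r g) / 2 - 2 * ((-ξ) * M g g)) := by
    rw [split, hxj]
  have rowg : ∀ g ∈ G, ∑ b, phi (r g + r b) * ((r g + r b) / 2 - 2 * (M g g * M b b))
      = phi (r g + L) * ((r g + L) / 2 - 2 * (M g g * ξ))
        + phi (r g + m) * ((r g + m) / 2 - 2 * (M g g * (-ξ)))
        + ∑ h ∈ G, phi (r g + r h) * ((r g + r h) / 2 - 2 * (M g g * M h h)) := by
    intro g _
    rw [split, hxj]
  rw [split, Finset.sum_congr rfl rowg, hxj]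
  rw [rowi, rowj]
  have sub1 : ∑ g ∈ E, (2 * phi (L + r g) * ((L + r g) / 2 - 2 * (ξ * (-(w g + z))))
        + 2 * phi (m + r g) * ((m + r g) / 2 + 2 * (ξ * (-(w g + z)))))
      = ∑ g ∈ G, (2 * phi (L + r g) * ((L + r g) / 2 - 2 * (ξ * (-(w g + z))))
        + 2 * phi (m + r g) * ((m + r g) / 2 + 2 * (ξ * (-(w g + z))))) := by
    refine Finset.sum_subset hEG fun g hg hgE => ?_
    rw [phi_of_le (hE g hg hgE), phi_of_le (by linarith [hE g hg hgE])]
    ring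
  have sub2 : ∑ g ∈ E, ∑ h ∈ E,
        phi (r g + r h) * ((r g + r h) / 2 - 2 * ((w g + z) * (w h + z)))
      = ∑ g ∈ G, ∑ h ∈ G,
        phi (r g + r h) * ((r g + r h) / 2 - 2 * ((w g + z) * (w h + z))) := by
    have c1 : ∀ g ∈ E, ∑ h ∈ E,
        phi (r g + r h) * ((r g + r h) / 2 - 2 * ((w g + z) * (w h + z)))
        = ∑ h ∈ G, phi (r g + r h) * ((r g + r h) / 2 - 2 * ((w g + z) * (w h + z))) := by
      intro g _
      refine Finset.sum_subset hEG fun h hh hhE => ?_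
      rw [phi_of_le (by linarith [hE h hh hhE, hle g]), zero_mul]
    rw [Finset.sum_congr rfl c1]
    refine Finset.sum_subset hEG fun g hg hgE => ?_
    refine Finset.sum_eq_zero fun h _ => ?_
    rw [phi_of_le (by linarith [hE g hg hgE, hle h]), zero_mul]
  rw [sub1, sub2]
  have c3 : ∑ g ∈ G, ∑ h ∈ G, phi (r g + r h) * ((r g + r h) / 2 - 2 * ((w g + z) * (w h + z)))
      = ∑ g ∈ G, ∑ h ∈ G, phi (r g + r h) * ((r g + r h) / 2 - 2 * (M g g * M h h)) := by
    refine Finset.sum_congr rfl fun g _ => Finset.sum_congr rfl fun h _ => ?_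
    simp only [w]; ring
  rw [c3]
  have c4 : ∑ g ∈ G, (2 * phi (L + r g) * ((L + r g) / 2 - 2 * (ξ * (-(w g + z))))
        + 2 * phi (m + r g) * ((m + r g) / 2 + 2 * (ξ * (-(w g + z)))))
      = ∑ g ∈ G, (phi (L + r g) * ((L + r g) / 2 - 2 * (ξ * M g g)))
        + ∑ g ∈ G, (phi (m + r g) * ((m + r g) / 2 - 2 * ((-ξ) * M g g)))
        + ∑ g ∈ G, (phi (r g + L) * ((r g + L) / 2 - 2 * (M g g * ξ))
          + phi (r g + m) * ((r g + m) / 2 - 2 * (M g g * (-ξ)))) := by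
    rw [← Finset.sum_add_distrib, ← Finset.sum_add_distrib]
    refine Finset.sum_congr rfl fun g _ => ?_
    rw [add_comm (r g) L, add_comm (r g) m]
    simp only [w]; ring
  rw [c4]
  have c5 : ∑ g ∈ G, (phi (r g + L) * ((r g + L) / 2 - 2 * (M g g * ξ))
        + phi (r g + m) * ((r g + m) / 2 - 2 * (M g g * (-ξ)))
        + ∑ h ∈ G, phi (r g + r h) * ((r g + r h) / 2 - 2 * (M g g * M h h)))
      = ∑ g ∈ G, (phi (r g + L) * ((r g + L) / 2 - 2 * (M g g * ξ))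
        + phi (r g + m) * ((r g + m) / 2 - 2 * (M g g * (-ξ))))
        + ∑ g ∈ G, ∑ h ∈ G, phi (r g + r h) * ((r g + r h) / 2 - 2 * (M g g * M h h)) := by
    rw [← Finset.sum_add_distrib]
  rw [c5, add_comm m L]
  ring

end Pool.Agent.H48.LW
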