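import Pool.Agent.H48.LW.Iso
import Pool.Agent.H48.LW.Cost
import Pool.Agent.H42.LW.Shift

/-!
Assembly of the proof of the Lu-Wenzel inequality for real matrices (MP_642cb2_an).
-/

open Matrix Finset

namespace Pool.Agent.H48.LW

variable {n : ℕ}

lemma sum_sq_eq (A : Matrix (Fin n) (Fin n) ℝ) : ∑ a, ∑ b, (A a b) ^ 2 = (A * Aᵀ).trace := by
  rw [norm_sq_trace, Matrix.trace_mul_comm]

lemma conj_sum_sq (O A : Matrix (Fin n) (Fin n) ℝ) (hO : Oᵀ * O = 1) :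
    ∑ a, ∑ b, ((Oᵀ * A * O) a b) ^ 2 = ∑ a, ∑ b, (A a b) ^ 2 := by
  have hO' : O * Oᵀ = 1 := mul_eq_one_comm.mp hO
  rw [norm_sq_trace, norm_sq_trace]
  have : (Oᵀ * A * O)ᵀ * (Oᵀ * A * O) = Oᵀ * (Aᵀ * A * O) := by
    simp only [Matrix.transpose_mul, Matrix.transpose_transpose, Matrix.mul_assoc]
    rw [← Matrix.mul_assoc O Oᵀ, hO', Matrix.one_mul]
  rw [this, Matrix.trace_mul_comm, Matrix.mul_assoc (Aᵀ * A), hO', Matrix.mul_one]

/-- The inequality for a normalised matrix. -/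
theorem unit_ineq (hn : 2 ≤ n) (X : Matrix (Fin n) (Fin n) ℝ)
    (hX : ∑ a, ∑ b, (X a b) ^ 2 = 1) {ι : Type*} [Fintype ι]
    (C : ι → Matrix (Fin n) (Fin n) ℝ)
    (h1 : ∀ α β, α ≠ β → (C α * (C β)ᵀ).trace = 0)
    (h2 : ∀ α β, (C α * (X * C β - C β * X)).trace = 0)
    (c : ℝ) (hc0 : 0 ≤ c) (hc : ∀ α, ∑ a, ∑ b, (C α a b) ^ 2 ≤ c) :
    ∑ α, ∑ a, ∑ b, ((X * C α - C α * X) a b) ^ 2 ≤ c + ∑ α, ∑ a, ∑ b, (C α a b) ^ 2 := by
  obtain ⟨O, z, r, i, j, hO, hij, hM, hx, hji, hr⟩ := Pool.Agent.H42.LW.exists_shift hn X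
  have hO' : O * Oᵀ = 1 := mul_eq_one_comm.mp hO
  set M := Oᵀ * X * O - z • (1 : Matrix (Fin n) (Fin n) ℝ) with hMdef
  have h3 : ∑ a, ∑ b, ((M + z • (1 : Matrix (Fin n) (Fin n) ℝ)) a b) ^ 2 = 1 := by
    rw [hMdef, sub_add_cancel, conj_sum_sq O X hO, hX]
  have hcost := cost_le_two M z r i j hij hM hx hji hr h3
  have hconj : ∀ A B : Matrix (Fin n) (Fin n) ℝ, (Oᵀ * A * O) * (Oᵀ * B * O) = Oᵀ * (A * B) * O := by
    intro A B
    simp only [Matrix.mul_assoc]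
    rw [← Matrix.mul_assoc O Oᵀ, hO', Matrix.one_mul]
  have hcomm : ∀ A : Matrix (Fin n) (Fin n) ℝ,
      M * (Oᵀ * A * O) - (Oᵀ * A * O) * M = Oᵀ * (X * A - A * X) * O := by
    intro A
    rw [hMdef, Matrix.sub_mul, Matrix.mul_sub, hconj, hconj, Matrix.smul_mul, Matrix.mul_smul,
      Matrix.one_mul, Matrix.mul_one, Matrix.mul_sub, Matrix.sub_mul]
    abel
  have key := ineq_of_cost M r hM hcost (fun α => Oᵀ * C α * O)
    (fun α β hab => by
      rw [show (Oᵀ * C β * O)ᵀ = Oᵀ * (C β)ᵀ * O by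
        simp only [Matrix.transpose_mul, Matrix.transpose_transpose, Matrix.mul_assoc],
        hconj, Matrix.trace_mul_comm, ← Matrix.mul_assoc, hO', Matrix.one_mul]
      exact h1 α β hab)
    (fun α β => by
      rw [hcomm, hconj, Matrix.trace_mul_comm, ← Matrix.mul_assoc, hO', Matrix.one_mul]
      exact h2 α β)
    c hc0 (fun α => by rw [conj_sum_sq O _ hO]; exact hc α)
  simp_rw [hcomm, conj_sum_sq O _ hO] at key
  exact key

/-- The Lu-Wenzel inequality, for a family indexed by a finite type. -/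
theorem lu_wenzel (hn : 2 ≤ n) (B : Matrix (Fin n) (Fin n) ℝ) {ι : Type*} [Fintype ι]
    (C : ι → Matrix (Fin n) (Fin n) ℝ)
    (h1 : ∀ α β, α ≠ β → (C α * (C β)ᵀ).trace = 0)
    (h2 : ∀ α β, (C α * (B * C β - C β * B)).trace = 0)
    (c : ℝ) (hc0 : 0 ≤ c) (hc : ∀ α, (C α * (C α)ᵀ).trace ≤ c) :
    ∑ α, ((B * C α - C α * B) * (B * C α - C α * B)ᵀ).trace
      ≤ (c + ∑ α, (C α * (C α)ᵀ).trace) * (B * Bᵀ).trace := by
  simp_rw [← sum_sq_eq] at hc ⊢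
  set N := ∑ a, ∑ b, (B a b) ^ 2 with hN
  have hN0 : 0 ≤ N := Finset.sum_nonneg fun a _ => Finset.sum_nonneg fun b _ => sq_nonneg _
  rcases hN0.eq_or_lt with h | h
  · have hB : B = 0 := by
      ext a b
      have e1 : ∀ a ∈ (Finset.univ : Finset (Fin n)), ∑ b, (B a b) ^ 2 = 0 :=
        (Finset.sum_eq_zero_iff_of_nonneg fun a _ => Finset.sum_nonneg fun b _ => sq_nonneg _).mp
          h.symm
      have e2 := (Finset.sum_eq_zero_iff_of_nonneg fun b _ => sq_nonneg _).mp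
        (e1 a (Finset.mem_univ a)) b (Finset.mem_univ b)
      simpa using e2
    rw [← h, mul_zero, hB]
    simp
  · set s := Real.sqrt N with hs
    have hs0 : 0 < s := Real.sqrt_pos.mpr h
    have hs2 : s ^ 2 = N := Real.sq_sqrt hN0
    have hX : ∑ a, ∑ b, ((s⁻¹ • B) a b) ^ 2 = 1 := by
      have : ∀ a b, ((s⁻¹ • B) a b) ^ 2 = N⁻¹ * (B a b) ^ 2 := by
        intro a b
        rw [Matrix.smul_apply, smul_eq_mul, mul_pow, inv_pow, hs2]
      simp_rw [this, ← Finset.mul_sum]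
      rw [← hN, inv_mul_cancel₀ h.ne']
    have hcm : ∀ A : Matrix (Fin n) (Fin n) ℝ,
        (s⁻¹ • B) * A - A * (s⁻¹ • B) = s⁻¹ • (B * A - A * B) := by
      intro A
      rw [Matrix.smul_mul, Matrix.mul_smul, smul_sub]
    have key := unit_ineq hn (s⁻¹ • B) hX C h1
      (fun α β => by
        rw [hcm, Matrix.mul_smul, Matrix.trace_smul, h2, smul_zero]) c hc0 hc
    simp_rw [hcm] at key
    have e3 : ∀ α, ∑ a, ∑ b, ((s⁻¹ • (B * C α - C α * B)) a b) ^ 2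
        = N⁻¹ * ∑ a, ∑ b, ((B * C α - C α * B) a b) ^ 2 := by
      intro α
      simp_rw [Finset.mul_sum]
      refine Finset.sum_congr rfl fun a _ => Finset.sum_congr rfl fun b _ => ?_
      rw [Matrix.smul_apply, smul_eq_mul, mul_pow, inv_pow, hs2]
    simp_rw [e3, ← Finset.mul_sum] at key
    rw [inv_mul_le_iff₀ h] at key
    linarith

end Pool.Agent.H48.LW
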