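import Mathlib

/-!
Operator part of the proof of the Lu-Wenzel conjecture (MP_642cb2_an).

For a real matrix `M` with `Mᵀ M + M Mᵀ = diagonal r` the map `K Y = [M, Y]ᵀ` is skew for the
trace inner product, `‖K Y‖² ≤ ∑ (r a + r b) Y a b ^ 2`, and therefore
`∑ (‖K Y_k‖² - 1) ≤ ∑ (1 - 1 / max 1 (r a + r b)) ‖K E_ab‖²` for every orthonormal family.
-/

open Matrix Finset
open scoped RealInnerProductSpace

namespace Pool.Agent.H48.LW

variable {n : ℕ}

/-- The Euclidean space of real `n × n` matrices. -/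
abbrev E (n : ℕ) := EuclideanSpace ℝ (Fin n × Fin n)

/-- A matrix as a vector. -/
noncomputable def vec (A : Matrix (Fin n) (Fin n) ℝ) : E n :=
  WithLp.toLp 2 (fun p => A p.1 p.2)

/-- A vector as a matrix. -/
def mat (v : E n) : Matrix (Fin n) (Fin n) ℝ := Matrix.of fun i j => v (i, j)

lemma mat_vec (A : Matrix (Fin n) (Fin n) ℝ) : mat (vec A) = A := by
  ext i j
  simp [mat, vec]

lemma vec_mat (v : E n) : vec (mat v) = v := by
  ext p
  simp [mat, vec]

@[simp] lemma vec_apply (A : Matrix (Fin n) (Fin n) ℝ) (p : Fin n × Fin n) :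
    vec A p = A p.1 p.2 := by
  simp [vec]

lemma vec_add (A B : Matrix (Fin n) (Fin n) ℝ) : vec (A + B) = vec A + vec B := by
  ext p; simp

lemma vec_smul (c : ℝ) (A : Matrix (Fin n) (Fin n) ℝ) : vec (c • A) = c • vec A := by
  ext p; simp

lemma mat_add (v w : E n) : mat (v + w) = mat v + mat w := by
  ext i j; simp [mat]

lemma mat_smul (c : ℝ) (v : E n) : mat (c • v) = c • mat v := by
  ext i j; simp [mat]

lemma inner_vec (A B : Matrix (Fin n) (Fin n) ℝ) :
    ⟪vec A, vec B⟫ = ∑ i, ∑ j, A i j * B i j := by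
  rw [PiLp.inner_apply, Fintype.sum_prod_type]
  refine Finset.sum_congr rfl fun i _ => Finset.sum_congr rfl fun j _ => ?_
  simp [mul_comm]

lemma sum_mul_eq_trace (A B : Matrix (Fin n) (Fin n) ℝ) :
    ∑ i, ∑ j, A i j * B i j = (Aᵀ * B).trace := by
  rw [Matrix.trace, Finset.sum_comm]
  refine Finset.sum_congr rfl fun i _ => ?_
  simp [Matrix.mul_apply]

lemma inner_vec' (A B : Matrix (Fin n) (Fin n) ℝ) : ⟪vec A, vec B⟫ = (Aᵀ * B).trace := by
  rw [inner_vec, sum_mul_eq_trace]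

lemma norm_vec_sq (A : Matrix (Fin n) (Fin n) ℝ) : ‖vec A‖ ^ 2 = ∑ i, ∑ j, A i j ^ 2 := by
  rw [← real_inner_self_eq_norm_sq, inner_vec]
  refine Finset.sum_congr rfl fun i _ => Finset.sum_congr rfl fun j _ => ?_
  ring

/-- The skew map `Y ↦ [M, Y]ᵀ`. -/
noncomputable def K (M : Matrix (Fin n) (Fin n) ℝ) : E n →ₗ[ℝ] E n where
  toFun v := vec ((M * mat v - mat v * M)ᵀ)
  map_add' v w := by
    rw [mat_add, ← vec_add, ← Matrix.transpose_add]
    congr 2
    noncomm_ring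
  map_smul' c v := by
    rw [mat_smul, RingHom.id_apply, ← vec_smul, ← Matrix.transpose_smul, Matrix.mul_smul,
      Matrix.smul_mul, smul_sub]

lemma K_vec (M A : Matrix (Fin n) (Fin n) ℝ) : K M (vec A) = vec ((M * A - A * M)ᵀ) := by
  change vec ((M * mat (vec A) - mat (vec A) * M)ᵀ) = _
  rw [mat_vec]

lemma K_skew (M : Matrix (Fin n) (Fin n) ℝ) (v w : E n) : ⟪K M v, w⟫ = - ⟪v, K M w⟫ := by
  rw [← vec_mat v, ← vec_mat w, K_vec, K_vec, inner_vec', inner_vec']
  set A := mat v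
  set B := mat w
  have h1 : (((M * A - A * M)ᵀ)ᵀ * B).trace = (M * (A * B)).trace - (A * (M * B)).trace := by
    rw [Matrix.transpose_transpose, Matrix.sub_mul, Matrix.trace_sub, Matrix.mul_assoc,
      Matrix.mul_assoc]
  have h2 : (Aᵀ * (M * B - B * M)ᵀ).trace = (A * (M * B)).trace - (M * (A * B)).trace := by
    rw [← Matrix.transpose_mul, Matrix.trace_transpose, Matrix.sub_mul, Matrix.trace_sub]
    congr 1
    · rw [Matrix.trace_mul_comm]
    · rw [Matrix.mul_assoc, Matrix.trace_mul_comm, Matrix.mul_assoc]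
  rw [h1, h2]
  ring

lemma norm_K_sq (M A : Matrix (Fin n) (Fin n) ℝ) :
    ‖K M (vec A)‖ ^ 2 = ∑ i, ∑ j, ((M * A - A * M) i j) ^ 2 := by
  rw [K_vec, norm_vec_sq, Finset.sum_comm]
  rfl

lemma norm_sq_trace (A : Matrix (Fin n) (Fin n) ℝ) :
    ∑ i, ∑ j, A i j ^ 2 = (Aᵀ * A).trace := by
  rw [← sum_mul_eq_trace]
  refine Finset.sum_congr rfl fun i _ => Finset.sum_congr rfl fun j _ => ?_
  ring

/-- The basic inequality `‖[M, Y]‖² ≤ ∑ (r a + r b) Y a b ^ 2`. -/
lemma comm_le (M : Matrix (Fin n) (Fin n) ℝ) (r : Fin n → ℝ)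
    (hM : Mᵀ * M + M * Mᵀ = diagonal r) (Y : Matrix (Fin n) (Fin n) ℝ) :
    ∑ i, ∑ j, ((M * Y - Y * M) i j) ^ 2 ≤ ∑ a, ∑ b, (r a + r b) * Y a b ^ 2 := by
  have h0 : 0 ≤ ∑ i, ∑ j, ((Mᵀ * Y + Y * Mᵀ) i j) ^ 2 :=
    Finset.sum_nonneg fun i _ => Finset.sum_nonneg fun j _ => sq_nonneg _
  have h1 : ∑ a, ∑ b, (r a + r b) * Y a b ^ 2
      = ((Mᵀ * M + M * Mᵀ) * (Y * Yᵀ)).trace + ((Mᵀ * M + M * Mᵀ) * (Yᵀ * Y)).trace := by
    rw [hM]
    have e1 : (diagonal r * (Y * Yᵀ)).trace = ∑ a, ∑ b, r a * Y a b ^ 2 := by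
      rw [Matrix.trace]
      refine Finset.sum_congr rfl fun a _ => ?_
      rw [Matrix.diag_apply, Matrix.diagonal_mul, Matrix.mul_apply, Finset.mul_sum]
      refine Finset.sum_congr rfl fun b _ => ?_
      rw [Matrix.transpose_apply]; ring
    have e2 : (diagonal r * (Yᵀ * Y)).trace = ∑ a, ∑ b, r b * Y a b ^ 2 := by
      rw [Matrix.trace, Finset.sum_comm]
      refine Finset.sum_congr rfl fun a _ => ?_
      rw [Matrix.diag_apply, Matrix.diagonal_mul, Matrix.mul_apply, Finset.mul_sum]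
      refine Finset.sum_congr rfl fun b _ => ?_
      rw [Matrix.transpose_apply]; ring
    rw [e1, e2, ← Finset.sum_add_distrib]
    refine Finset.sum_congr rfl fun a _ => ?_
    rw [← Finset.sum_add_distrib]
    refine Finset.sum_congr rfl fun b _ => ?_
    ring
  have h2 : ∑ i, ∑ j, ((M * Y - Y * M) i j) ^ 2 + ∑ i, ∑ j, ((Mᵀ * Y + Y * Mᵀ) i j) ^ 2
      = ∑ a, ∑ b, (r a + r b) * Y a b ^ 2 := by
    rw [h1, norm_sq_trace, norm_sq_trace]
    simp only [Matrix.transpose_sub, Matrix.transpose_add, Matrix.transpose_mul,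
      Matrix.transpose_transpose, Matrix.sub_mul, Matrix.mul_sub, Matrix.add_mul, Matrix.mul_add,
      Matrix.trace_add, Matrix.trace_sub]
    have c1 : (Yᵀ * Mᵀ * (M * Y)).trace = (Mᵀ * M * (Y * Yᵀ)).trace := by
      rw [Matrix.mul_assoc, Matrix.trace_mul_comm]
      simp only [Matrix.mul_assoc]
    have c2 : (Mᵀ * Yᵀ * (Y * M)).trace = (M * Mᵀ * (Yᵀ * Y)).trace := by
      rw [Matrix.trace_mul_comm (Mᵀ * Yᵀ), Matrix.mul_assoc, Matrix.trace_mul_comm Y]
      simp only [Matrix.mul_assoc]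
    have c3 : (Yᵀ * M * (Mᵀ * Y)).trace = (M * Mᵀ * (Y * Yᵀ)).trace := by
      rw [Matrix.mul_assoc, Matrix.trace_mul_comm]
      simp only [Matrix.mul_assoc]
    have c4 : (M * Yᵀ * (Y * Mᵀ)).trace = (Mᵀ * M * (Yᵀ * Y)).trace := by
      rw [Matrix.trace_mul_comm (M * Yᵀ), Matrix.mul_assoc, Matrix.trace_mul_comm Y]
      simp only [Matrix.mul_assoc]
    have c5 : (Yᵀ * M * (Y * Mᵀ)).trace = (Mᵀ * Yᵀ * (M * Y)).trace := by
      rw [← Matrix.mul_assoc, Matrix.trace_mul_comm]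
      simp only [Matrix.mul_assoc]
    have c6 : (M * Yᵀ * (Mᵀ * Y)).trace = (Yᵀ * Mᵀ * (Y * M)).trace := by
      rw [Matrix.mul_assoc, Matrix.trace_mul_comm]
      simp only [Matrix.mul_assoc]
    linarith
  linarith

/-- The weights `g a b = max 1 (r a + r b)`. -/
noncomputable def g (r : Fin n → ℝ) (a b : Fin n) : ℝ := max 1 (r a + r b)

lemma g_pos (r : Fin n → ℝ) (a b : Fin n) : 0 < g r a b := lt_of_lt_of_le one_pos (le_max_left _ _)

lemma one_le_g (r : Fin n → ℝ) (a b : Fin n) : 1 ≤ g r a b := le_max_left _ _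

/-- `q(K F) ≤ ‖F‖²` where `q` is the inverse of the dominating diagonal form. -/
lemma q_le (M : Matrix (Fin n) (Fin n) ℝ) (r : Fin n → ℝ)
    (hM : Mᵀ * M + M * Mᵀ = diagonal r) (v : E n) :
    ∑ a, ∑ b, (mat (K M v) a b) ^ 2 / g r a b ≤ ‖v‖ ^ 2 := by
  set Z := mat (K M v) with hZ
  set q := ∑ a, ∑ b, (Z a b) ^ 2 / g r a b with hq
  have hq0 : 0 ≤ q := Finset.sum_nonneg fun a _ => Finset.sum_nonneg fun b _ =>
    div_nonneg (sq_nonneg _) (g_pos r a b).le
  let Y : Matrix (Fin n) (Fin n) ℝ := Matrix.of fun a b => Z a b / g r a b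
  have h1 : ⟪vec Y, K M v⟫ = q := by
    rw [← vec_mat (K M v), inner_vec]
    refine Finset.sum_congr rfl fun a _ => Finset.sum_congr rfl fun b _ => ?_
    simp only [Y, Matrix.of_apply]
    ring
  have h2 : ‖K M (vec Y)‖ ^ 2 ≤ q := by
    rw [norm_K_sq]
    refine (comm_le M r hM Y).trans ?_
    refine Finset.sum_le_sum fun a _ => Finset.sum_le_sum fun b _ => ?_
    have hg := g_pos r a b
    have h3 : r a + r b ≤ g r a b := le_max_right _ _
    simp only [Y, Matrix.of_apply]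
    rw [div_pow, ← mul_div_assoc, div_le_div_iff₀ (by positivity) hg]
    have : (r a + r b) * Z a b ^ 2 ≤ g r a b * Z a b ^ 2 :=
      mul_le_mul_of_nonneg_right h3 (sq_nonneg _)
    nlinarith [mul_le_mul_of_nonneg_right this hg.le]
  have h3 : q = - ⟪K M (vec Y), v⟫ := by
    rw [K_skew, neg_neg, h1]
  have h4 : q ≤ ‖K M (vec Y)‖ * ‖v‖ := by
    rw [h3]
    have := abs_real_inner_le_norm (K M (vec Y)) v
    linarith [neg_abs_le ⟪K M (vec Y), v⟫]
  have h5 : q ^ 2 ≤ q * ‖v‖ ^ 2 := by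
    calc q ^ 2 ≤ (‖K M (vec Y)‖ * ‖v‖) ^ 2 := by
          exact pow_le_pow_left₀ hq0 h4 2
      _ = ‖K M (vec Y)‖ ^ 2 * ‖v‖ ^ 2 := by ring
      _ ≤ q * ‖v‖ ^ 2 := mul_le_mul_of_nonneg_right h2 (sq_nonneg _)
  rcases hq0.eq_or_lt with h | h
  · rw [← h]; positivity
  · nlinarith

/-- The cost of the certificate, in terms of matrix units. -/
noncomputable def cost' (M : Matrix (Fin n) (Fin n) ℝ) (r : Fin n → ℝ) : ℝ :=
  ∑ a, ∑ b, (1 - 1 / g r a b) * ‖K M (vec (Matrix.single a b 1))‖ ^ 2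

lemma mat_K_apply (M : Matrix (Fin n) (Fin n) ℝ) (v : E n) (a b : Fin n) :
    mat (K M v) a b = - ⟪v, K M (vec (Matrix.single a b 1))⟫ := by
  rw [← K_skew]
  have : ⟪K M v, vec (Matrix.single a b (1 : ℝ))⟫ = mat (K M v) a b := by
    conv_lhs => rw [← vec_mat (K M v)]
    rw [inner_vec]
    rw [Finset.sum_eq_single a, Finset.sum_eq_single b]
    · simp
    · intro j _ hj
      simp [hj.symm]
    · simp
    · intro i _ hi
      apply Finset.sum_eq_zero
      intro j _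
      simp [hi.symm]
    · simp
  exact this.symm

/-- Lemma C: the Ky Fan type bound for orthonormal families. -/
theorem orthonormal_le (M : Matrix (Fin n) (Fin n) ℝ) (r : Fin n → ℝ)
    (hM : Mᵀ * M + M * Mᵀ = diagonal r) {κ : Type*} [Fintype κ] (s : κ → E n)
    (hs : Orthonormal ℝ s) :
    ∑ k, ‖K M (s k)‖ ^ 2 ≤ Fintype.card κ + cost' M r := by
  classical
  have h1 : ∀ k, ‖K M (s k)‖ ^ 2 ≤ 1 + ∑ a, ∑ b, (1 - 1 / g r a b) *
      ⟪s k, K M (vec (Matrix.single a b 1))⟫ ^ 2 := by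
    intro k
    have hq := q_le M r hM (s k)
    rw [hs.1 k, one_pow] at hq
    have e : ‖K M (s k)‖ ^ 2 = ∑ a, ∑ b, (mat (K M (s k)) a b) ^ 2 := by
      rw [← norm_vec_sq, vec_mat]
    have e2 : ∑ a, ∑ b, (1 - 1 / g r a b) * ⟪s k, K M (vec (Matrix.single a b 1))⟫ ^ 2
        = ∑ a, ∑ b, (mat (K M (s k)) a b) ^ 2 - ∑ a, ∑ b, (mat (K M (s k)) a b) ^ 2 / g r a b := by
      rw [← Finset.sum_sub_distrib]
      refine Finset.sum_congr rfl fun a _ => ?_
      rw [← Finset.sum_sub_distrib]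
      refine Finset.sum_congr rfl fun b _ => ?_
      rw [mat_K_apply]
      ring
    rw [e2, e]
    linarith
  calc ∑ k, ‖K M (s k)‖ ^ 2 ≤ ∑ k, (1 + ∑ a, ∑ b, (1 - 1 / g r a b) *
        ⟪s k, K M (vec (Matrix.single a b 1))⟫ ^ 2) := Finset.sum_le_sum fun k _ => h1 k
    _ = Fintype.card κ + ∑ a, ∑ b, (1 - 1 / g r a b) *
        ∑ k, ⟪s k, K M (vec (Matrix.single a b 1))⟫ ^ 2 := by
        rw [Finset.sum_add_distrib]
        congr 1
        · simp
        · rw [Finset.sum_comm]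
          refine Finset.sum_congr rfl fun a _ => ?_
          rw [Finset.sum_comm]
          refine Finset.sum_congr rfl fun b _ => ?_
          rw [Finset.mul_sum]
    _ ≤ Fintype.card κ + cost' M r := by
        gcongr with a _ b _
        unfold cost'
        gcongr with a _ b _
        · have h2 := one_le_g r a b
          have : 1 / g r a b ≤ 1 := by
            rw [div_le_one (g_pos r a b)]; exact h2
          linarith
        · have := hs.sum_inner_products_le (x := K M (vec (Matrix.single a b 1)))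
            (s := Finset.univ)
          simpa [Real.norm_eq_abs, sq_abs] using this

end Pool.Agent.H48.LW
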