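import Mathlib

/-!
Scalar inequality behind the Lu-Wenzel conjecture (MP_642cb2_an).
-/

open Finset

namespace Pool.Agent.H48.LW

/-- `φ(s) = (1 - 1/s)₊` for `s > 0`. -/
noncomputable def phi (s : ℝ) : ℝ := 1 - 1 / max 1 s

lemma phi_of_le {s : ℝ} (h : s ≤ 1) : phi s = 0 := by
  unfold phi; rw [max_eq_left h]; norm_num

lemma phi_of_ge {s : ℝ} (h : 1 ≤ s) : phi s = 1 - 1 / s := by
  unfold phi; rw [max_eq_right h]

lemma phi_mono {s t : ℝ} (h : s ≤ t) : phi s ≤ phi t := by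
  unfold phi
  have h1 : 0 < max 1 s := lt_of_lt_of_le one_pos (le_max_left _ _)
  have h2 : max 1 s ≤ max 1 t := max_le_max le_rfl h
  have := one_div_le_one_div_of_le h1 h2
  linarith

lemma phi_nonneg (s : ℝ) : 0 ≤ phi s := by
  rcases le_total s 1 with h | h
  · rw [phi_of_le h]
  · rw [← phi_of_le le_rfl]; exact phi_mono h

lemma phi_le_half {s : ℝ} (h : s ≤ 2) : phi s ≤ 1 / 2 := by
  have := phi_mono h
  rw [phi_of_ge (show (1 : ℝ) ≤ 2 by norm_num)] at this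
  linarith

/-- The contribution of the pairs `(1, g)` and `(2, g)`. -/
lemma S_le {L m ρ ξ x : ℝ} (hD : m ≤ L) (hξ : 2 * ξ ^ 2 ≤ m) (hx : 2 * x ^ 2 ≤ ρ)
    (hu : 1 < L + ρ) :
    2 * phi (L + ρ) * ((L + ρ) / 2 - 2 * (ξ * x)) + 2 * phi (m + ρ) * ((m + ρ) / 2 + 2 * (ξ * x))
      ≤ 2 * (L + ρ - 1) - (L - m) * phi (L + ρ) := by
  have hζ : - (2 * (ξ * x)) ≤ (m + ρ) / 2 := by nlinarith [sq_nonneg (ξ + x)]
  have hm0 : 0 ≤ m := le_trans (by positivity) hξ
  have hρ0 : 0 ≤ ρ := le_trans (by positivity) hx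
  rw [phi_of_ge hu.le]
  have hpos : 0 < L + ρ := by linarith
  rcases le_total (m + ρ) 1 with h | h
  · rw [phi_of_le h]
    have e : 2 * (1 - 1 / (L + ρ)) * ((L + ρ) / 2 - 2 * (ξ * x))
        = (L + ρ - 1) + (L + ρ - 1) / (L + ρ) * (2 * (- (2 * (ξ * x)))) := by
      field_simp; ring
    have e2 : 2 * (L + ρ - 1) - (L - m) * (1 - 1 / (L + ρ))
        = (L + ρ - 1) + (L + ρ - 1) / (L + ρ) * (m + ρ) := by
      field_simp; ring
    rw [e, e2]
    have : 0 ≤ (L + ρ - 1) / (L + ρ) := div_nonneg (by linarith) hpos.le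
    have := mul_le_mul_of_nonneg_left (show 2 * (- (2 * (ξ * x))) ≤ m + ρ by linarith) this
    linarith
  · rw [phi_of_ge h]
    have hpos2 : 0 < m + ρ := by linarith
    have e : 2 * (1 - 1 / (L + ρ)) * ((L + ρ) / 2 - 2 * (ξ * x))
        + 2 * (1 - 1 / (m + ρ)) * ((m + ρ) / 2 + 2 * (ξ * x))
        = (L + ρ - 1) + (m + ρ - 1)
          + (L - m) / ((L + ρ) * (m + ρ)) * (2 * (- (2 * (ξ * x)))) := by
      field_simp; ring
    have e2 : 2 * (L + ρ - 1) - (L - m) * (1 - 1 / (L + ρ))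
        = (L + ρ - 1) + (m + ρ - 1) + (L - m) / ((L + ρ) * (m + ρ)) * (m + ρ) := by
      field_simp; ring
    rw [e, e2]
    have : 0 ≤ (L - m) / ((L + ρ) * (m + ρ)) := div_nonneg (by linarith) (by positivity)
    have := mul_le_mul_of_nonneg_left (show 2 * (- (2 * (ξ * x))) ≤ m + ρ by linarith) this
    linarith

/-- The contribution of the top two eigenvectors, first case. -/
lemma PU_le {L m ξ : ℝ} (hD : m ≤ L) (hξ : 2 * ξ ^ 2 ≤ m) (hm : 1 / 2 ≤ m) :
    phi (L + L) * (L - 2 * ξ ^ 2) + phi (m + m) * (m - 2 * ξ ^ 2)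
      + 2 * phi (L + m) * ((L + m) / 2 + 2 * ξ ^ 2)
      ≤ 2 * (L + m - 1) + (L - m) ^ 2 / (2 * L * (L + m)) := by
  have hm0 : 0 < m := by linarith
  have hL0 : 0 < L := by linarith
  rw [phi_of_ge (by linarith), phi_of_ge (by linarith), phi_of_ge (by linarith)]
  have e : (1 - 1 / (L + L)) * (L - 2 * ξ ^ 2) + (1 - 1 / (m + m)) * (m - 2 * ξ ^ 2)
      + 2 * (1 - 1 / (L + m)) * ((L + m) / 2 + 2 * ξ ^ 2)
      = 2 * (L + m - 1) + ((L - m) ^ 2 / (L * m * (L + m))) * ξ ^ 2 := by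
    field_simp; ring
  rw [e]
  have e2 : (L - m) ^ 2 / (2 * L * (L + m)) = ((L - m) ^ 2 / (L * m * (L + m))) * (m / 2) := by
    field_simp
  rw [e2]
  have h1 : 0 ≤ (L - m) ^ 2 / (L * m * (L + m)) := by positivity
  have := mul_le_mul_of_nonneg_left (show ξ ^ 2 ≤ m / 2 by linarith) h1
  linarith

/-- The slack of the diagonal pair. -/
lemma slack {L m ρ : ℝ} (hD : m ≤ L) (hm : 1 / 2 ≤ m) (hρm : ρ ≤ m)
    (hρ : 1 < ρ + m) :
    phi (ρ + ρ) + (L - m) / (2 * L * (L + m)) ≤ phi (L + ρ) := by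
  have hm0 : 0 < m := by linarith
  have hL0 : 0 < L := by linarith
  have hLρ : 1 < L + ρ := by linarith
  rw [phi_of_ge hLρ.le]
  rcases le_total (ρ + ρ) 1 with h | h
  · rw [phi_of_le h]
    have h1 : (L - m) / (2 * L * (L + m)) ≤ (L + ρ - 1) / (L + ρ) := by
      rw [div_le_div_iff₀ (by positivity) (by linarith)]
      have a1 : L - m ≤ L + ρ - 1 := by linarith
      have a2 : L + ρ ≤ 2 * L * (L + m) := by nlinarith
      have a3 : 0 ≤ L - m := by linarith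
      calc (L - m) * (L + ρ) ≤ (L + ρ - 1) * (L + ρ) := by nlinarith
        _ ≤ (L + ρ - 1) * (2 * L * (L + m)) := by nlinarith
    have e : 1 - 1 / (L + ρ) = (L + ρ - 1) / (L + ρ) := by
      have : L + ρ ≠ 0 := by linarith
      field_simp
    rw [e]; linarith
  · rw [phi_of_ge h]
    have hρ0 : 0 < ρ := by linarith
    have h1 : (L - m) / (2 * L * (L + m)) ≤ (L - ρ) / ((ρ + ρ) * (L + ρ)) := by
      apply div_le_div₀ (by linarith) (by linarith) (by positivity)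
      have : ρ + ρ ≤ 2 * L := by linarith
      have h2 : L + ρ ≤ L + m := by linarith
      exact mul_le_mul this h2 (by linarith) (by linarith)
    have e : 1 - 1 / (L + ρ) = 1 - 1 / (ρ + ρ) + (L - ρ) / ((ρ + ρ) * (L + ρ)) := by
      field_simp; ring
    rw [e]; linarith

/-- The second case, `2 m < 1 < L + m`. -/
lemma caseB {L m ξ : ℝ} (hD : m ≤ L) (hξ : 2 * ξ ^ 2 ≤ m) (hm : m + m ≤ 1) (hLm : 1 < L + m)
    (hL1 : L ≤ 1) :
    phi (L + L) * (L - 2 * ξ ^ 2) + 2 * phi (L + m) * ((L + m) / 2 + 2 * ξ ^ 2)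
      + (2 - (L + m)) * (2 - (L - m) / (L + m)) ≤ 2 := by
  have hm0 : 0 ≤ m := le_trans (by positivity) hξ
  have hL0 : 0 < L := by linarith
  rw [phi_of_ge (by linarith), phi_of_ge hLm.le]
  have hs : 0 < L + m := by linarith
  set c : ℝ := 4 * (1 - 1 / (L + m)) - 2 * (1 - 1 / (L + L)) with hc
  have e : (1 - 1 / (L + L)) * (L - 2 * ξ ^ 2) + 2 * (1 - 1 / (L + m)) * ((L + m) / 2 + 2 * ξ ^ 2)
      + (2 - (L + m)) * (2 - (L - m) / (L + m))
      = ((1 - 1 / (L + L)) * L + (1 - 1 / (L + m)) * (L + m)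
        + (2 - (L + m)) * (2 - (L - m) / (L + m))) + c * ξ ^ 2 := by
    rw [hc]; ring
  rw [e]
  have f0 : (1 - 1 / (L + L)) * L + (1 - 1 / (L + m)) * (L + m)
        + (2 - (L + m)) * (2 - (L - m) / (L + m)) ≤ 2 := by
    have e1 : (1 - 1 / (L + L)) * L + (1 - 1 / (L + m)) * (L + m)
        + (2 - (L + m)) * (2 - (L - m) / (L + m)) - 2
        = (3 * (L + m) * (L - m) - 4 * (L - m) + (L + m) - (L + m) ^ 2) / (2 * (L + m)) := by
      field_simp; ring
    have e2 : (3 * (L + m) * (L - m) - 4 * (L - m) + (L + m) - (L + m) ^ 2) ≤ 0 := by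
      nlinarith [mul_nonneg (sub_nonneg.mpr hD) (sub_nonneg.mpr hLm.le),
        mul_nonneg (sub_nonneg.mpr hL1) (sub_nonneg.mpr hLm.le),
        mul_nonneg (sub_nonneg.mpr hD) (sub_nonneg.mpr hL1), sq_nonneg (L - m - (L + m - 1))]
    have e3 : (3 * (L + m) * (L - m) - 4 * (L - m) + (L + m) - (L + m) ^ 2) / (2 * (L + m)) ≤ 0 :=
      div_nonpos_of_nonpos_of_nonneg e2 (by linarith)
    linarith
  have f1 : (1 - 1 / (L + L)) * L + (1 - 1 / (L + m)) * (L + m)
        + (2 - (L + m)) * (2 - (L - m) / (L + m)) + c * (m / 2) ≤ 2 := by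
    have e1 : (1 - 1 / (L + L)) * L + (1 - 1 / (L + m)) * (L + m)
        + (2 - (L + m)) * (2 - (L - m) / (L + m)) + c * (m / 2) - 2
        = (L - m) * ((L + m - 1) * (2 * L - 1) - 1) / (2 * L * (L + m)) := by
      rw [hc]; field_simp; ring
    have e2 : (L - m) * ((L + m - 1) * (2 * L - 1) - 1) ≤ 0 := by
      apply mul_nonpos_of_nonneg_of_nonpos (by linarith)
      nlinarith
    have e3 : (L - m) * ((L + m - 1) * (2 * L - 1) - 1) / (2 * L * (L + m)) ≤ 0 :=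
      div_nonpos_of_nonpos_of_nonneg e2 (by positivity)
    linarith
  rcases le_total c 0 with h | h
  · have := mul_nonneg_of_nonpos_of_nonpos h (show -(ξ ^ 2) ≤ 0 by nlinarith [sq_nonneg ξ])
    nlinarith [sq_nonneg ξ]
  · have := mul_le_mul_of_nonneg_left (show ξ ^ 2 ≤ m / 2 by linarith) h
    linarith

variable {κ : Type*}

/-- Bound for the pairs of indices in the complement of the top two. -/
lemma pairs_le (E : Finset κ) (w β o r : κ → ℝ) {z τ b L m Φ : ℝ}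
    (hβ : ∀ g ∈ E, 0 ≤ β g) (ho : ∀ g ∈ E, 0 ≤ o g) (hb : 0 ≤ b) (_hD : m ≤ L) (hm1 : m ≤ 1)
    (hB : ∑ g ∈ E, β g ≤ 2 * b + (L - m)) (hW : ∑ g ∈ E, (2 * w g ^ 2 + o g) ≤ 2 * τ)
    (hr : ∀ g ∈ E, r g = 2 * (w g + z) ^ 2 + β g + o g) (hrm : ∀ g ∈ E, r g ≤ m)
    (hΦ : ∀ g ∈ E, ∑ h ∈ E, phi (r g + r h) ≤ Φ) (hΦ0 : 0 ≤ Φ) (hΦk : Φ ≤ E.card / 2) :
    ∑ g ∈ E, ∑ h ∈ E, phi (r g + r h) * ((r g + r h) / 2 - 2 * ((w g + z) * (w h + z)))
      ≤ (E.card * ∑ g ∈ E, w g ^ 2 - (∑ g ∈ E, w g) ^ 2) + E.card * (τ - ∑ g ∈ E, w g ^ 2)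
        + b * E.card + (L - m) * Φ := by
  have hφ : ∀ g ∈ E, ∀ h ∈ E, phi (r g + r h) ≤ 1 / 2 := fun g hg h hh =>
    phi_le_half (by linarith [hrm g hg, hrm h hh])
  have h1 : ∑ g ∈ E, ∑ h ∈ E, phi (r g + r h) * ((r g + r h) / 2 - 2 * ((w g + z) * (w h + z)))
      = ∑ g ∈ E, ∑ h ∈ E, phi (r g + r h) * (w g - w h) ^ 2
        + ∑ g ∈ E, (β g + o g) * ∑ h ∈ E, phi (r g + r h) := by
    have a1 : ∑ g ∈ E, ∑ h ∈ E, phi (r g + r h) * ((r g + r h) / 2 - 2 * ((w g + z) * (w h + z)))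
        = ∑ g ∈ E, ∑ h ∈ E, (phi (r g + r h) * (w g - w h) ^ 2
          + (1 / 2 * ((β g + o g) * phi (r g + r h)) + 1 / 2 * ((β h + o h) * phi (r g + r h)))) := by
      refine Finset.sum_congr rfl fun g hg => Finset.sum_congr rfl fun h hh => ?_
      rw [hr g hg, hr h hh]; ring
    rw [a1]
    simp only [Finset.sum_add_distrib, ← Finset.mul_sum]
    congr 1
    have a2 : ∑ g ∈ E, ∑ h ∈ E, (β h + o h) * phi (r g + r h)
        = ∑ g ∈ E, (β g + o g) * ∑ h ∈ E, phi (r g + r h) := by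
      rw [Finset.sum_comm]
      refine Finset.sum_congr rfl fun g _ => ?_
      rw [Finset.mul_sum]
      refine Finset.sum_congr rfl fun h _ => ?_
      rw [add_comm (r h)]
    rw [a2]; ring
  have h2 : ∑ g ∈ E, ∑ h ∈ E, phi (r g + r h) * (w g - w h) ^ 2
      ≤ E.card * ∑ g ∈ E, w g ^ 2 - (∑ g ∈ E, w g) ^ 2 := by
    calc ∑ g ∈ E, ∑ h ∈ E, phi (r g + r h) * (w g - w h) ^ 2
        ≤ ∑ g ∈ E, ∑ h ∈ E, 1 / 2 * (w g - w h) ^ 2 :=
          Finset.sum_le_sum fun g hg => Finset.sum_le_sum fun h hh =>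
            mul_le_mul_of_nonneg_right (hφ g hg h hh) (sq_nonneg _)
      _ = E.card * ∑ g ∈ E, w g ^ 2 - (∑ g ∈ E, w g) ^ 2 := by
          have : ∀ g h, 1 / 2 * (w g - w h) ^ 2 = 1 / 2 * w g ^ 2 + 1 / 2 * w h ^ 2
              - w g * w h := fun g h => by ring
          simp_rw [this, Finset.sum_sub_distrib, Finset.sum_add_distrib, Finset.sum_const,
            nsmul_eq_mul, ← Finset.mul_sum]
          rw [sq, Finset.sum_mul]
          ring
  have h3 : ∑ g ∈ E, (β g + o g) * ∑ h ∈ E, phi (r g + r h)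
      ≤ (∑ g ∈ E, β g) * Φ + (∑ g ∈ E, o g) * (E.card / 2) := by
    rw [Finset.sum_mul, Finset.sum_mul, ← Finset.sum_add_distrib]
    refine Finset.sum_le_sum fun g hg => ?_
    have b1 := mul_le_mul_of_nonneg_left (hΦ g hg) (hβ g hg)
    have b2 := mul_le_mul_of_nonneg_left ((hΦ g hg).trans hΦk) (ho g hg)
    linarith
  have h4 : (∑ g ∈ E, o g) ≤ 2 * (τ - ∑ g ∈ E, w g ^ 2) := by
    rw [Finset.sum_add_distrib, ← Finset.mul_sum] at hW
    linarith
  have hk : (0 : ℝ) ≤ E.card := Nat.cast_nonneg _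
  have h5 : (∑ g ∈ E, β g) * Φ ≤ b * E.card + (L - m) * Φ := by
    have c1 := mul_le_mul_of_nonneg_right hB hΦ0
    have c2 := mul_le_mul_of_nonneg_left hΦk hb
    nlinarith
  have h6 : (∑ g ∈ E, o g) * (E.card / 2) ≤ E.card * (τ - ∑ g ∈ E, w g ^ 2) := by
    have := mul_le_mul_of_nonneg_right h4 (show (0 : ℝ) ≤ E.card / 2 by positivity)
    linarith
  rw [h1]
  linarith

/-- The scalar inequality. -/
theorem main_abs (E : Finset κ) (w β o r : κ → ℝ) {z τ b L m ξ : ℝ}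
    (hβ : ∀ g ∈ E, 0 ≤ β g) (ho : ∀ g ∈ E, 0 ≤ o g) (hb : 0 ≤ b) (hD : m ≤ L)
    (hL : L = 1 - (2 * z ^ 2 + τ + b)) (hξ : 2 * ξ ^ 2 ≤ m)
    (hB : ∑ g ∈ E, β g ≤ 2 * b + (L - m)) (hW : ∑ g ∈ E, (2 * w g ^ 2 + o g) ≤ 2 * τ)
    (hr : ∀ g ∈ E, r g = 2 * (w g + z) ^ 2 + β g + o g) (hrm : ∀ g ∈ E, r g ≤ m)
    (hu : ∀ g ∈ E, 1 < L + r g) (hL2 : 1 / 2 < L) :
    phi (L + L) * (L - 2 * ξ ^ 2) + phi (m + m) * (m - 2 * ξ ^ 2)
      + 2 * phi (L + m) * ((L + m) / 2 + 2 * ξ ^ 2)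
    + ∑ g ∈ E, (2 * phi (L + r g) * ((L + r g) / 2 - 2 * (ξ * (-(w g + z))))
        + 2 * phi (m + r g) * ((m + r g) / 2 + 2 * (ξ * (-(w g + z)))))
    + ∑ g ∈ E, ∑ h ∈ E, phi (r g + r h) * ((r g + r h) / 2 - 2 * ((w g + z) * (w h + z))) ≤ 2 := by
  classical
  have hτ : 0 ≤ τ := by
    have : 0 ≤ ∑ g ∈ E, (2 * w g ^ 2 + o g) :=
      Finset.sum_nonneg fun g hg => by have := ho g hg; positivity
    linarith
  have hm0 : 0 ≤ m := le_trans (by positivity) hξ
  have hL1 : L ≤ 1 := by rw [hL]; nlinarith [sq_nonneg z]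
  have hm1 : m ≤ 1 := hD.trans hL1
  have hk : (0 : ℝ) ≤ E.card := Nat.cast_nonneg _
  set Sw := ∑ g ∈ E, w g with hSw
  set Sw2 := ∑ g ∈ E, w g ^ 2 with hSw2
  set So := ∑ g ∈ E, o g with hSo
  set Bt := ∑ g ∈ E, β g with hBt
  set U := ∑ g ∈ E, (L + r g - 1) with hU
  have hU0 : 0 ≤ U := Finset.sum_nonneg fun g hg => by linarith [hu g hg]
  have hU' : U = 2 * Sw2 + 4 * z * Sw + Bt + So - E.card * (τ + b) := by
    have : U = ∑ g ∈ E, (2 * w g ^ 2 + 4 * z * w g + β g + o g - (τ + b)) := by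
      refine Finset.sum_congr rfl fun g hg => ?_
      rw [hr g hg, hL]; ring
    rw [this, Finset.sum_sub_distrib, Finset.sum_add_distrib, Finset.sum_add_distrib,
      Finset.sum_add_distrib, ← Finset.mul_sum, ← Finset.mul_sum, Finset.sum_const, nsmul_eq_mul]
  have hW' : 2 * Sw2 + So ≤ 2 * τ := by
    rw [Finset.sum_add_distrib, ← Finset.mul_sum] at hW; exact hW
  have hSo0 : 0 ≤ So := Finset.sum_nonneg ho
  have hCS : Sw ^ 2 ≤ E.card * Sw2 := sq_sum_le_card_mul_sum_sq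
  set δ := 2 - 2 * L + (L - m) - U with hδ
  have hδ1 : (E.card * Sw2 - Sw ^ 2) + E.card * (τ - Sw2) + b * E.card ≤ δ := by
    have e : δ = (2 * z - Sw) ^ 2 + (E.card * Sw2 - Sw ^ 2) + E.card * (τ - Sw2)
        + (2 * τ - 2 * Sw2 - So) + ((L - m) + 2 * b - Bt) + b * E.card := by
      rw [hδ, hU']
      nth_rewrite 1 [hL]
      ring
    rw [e]
    nlinarith [sq_nonneg (2 * z - Sw)]
  have hδ0 : 0 ≤ δ := by
    have : 0 ≤ E.card * (τ - Sw2) := mul_nonneg hk (by linarith)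
    have : 0 ≤ b * E.card := mul_nonneg hb hk
    linarith
  have hx2 : ∀ g ∈ E, 2 * (-(w g + z)) ^ 2 ≤ r g := by
    intro g hg
    rw [hr g hg]
    have := hβ g hg
    have := ho g hg
    nlinarith
  have hS : ∑ g ∈ E, (2 * phi (L + r g) * ((L + r g) / 2 - 2 * (ξ * (-(w g + z))))
        + 2 * phi (m + r g) * ((m + r g) / 2 + 2 * (ξ * (-(w g + z)))))
      ≤ 2 * U - (L - m) * ∑ g ∈ E, phi (L + r g) := by
    rw [hU, Finset.mul_sum, Finset.mul_sum, ← Finset.sum_sub_distrib]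
    exact Finset.sum_le_sum fun g hg => S_le hD hξ (hx2 g hg) (hu g hg)
  have hφU : U ≤ (L + m) * ∑ g ∈ E, phi (L + r g) := by
    rw [hU, Finset.mul_sum]
    refine Finset.sum_le_sum fun g hg => ?_
    have h1 := hu g hg
    rw [phi_of_ge h1.le]
    have e : (1 : ℝ) - 1 / (L + r g) = (L + r g - 1) / (L + r g) := by
      have : L + r g ≠ 0 := by linarith
      field_simp
    rw [e, ← mul_div_assoc, le_div_iff₀ (by linarith)]
    have := hrm g hg
    nlinarith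
  set Tφ := ∑ g ∈ E, phi (L + r g) with hTφ
  have hTφ0 : 0 ≤ Tφ := Finset.sum_nonneg fun g _ => phi_nonneg _
  rcases le_total (m + m) 1 with hcase | hcase
  · -- case B
    have hP : ∑ g ∈ E, ∑ h ∈ E, phi (r g + r h) *
        ((r g + r h) / 2 - 2 * ((w g + z) * (w h + z))) = 0 := by
      refine Finset.sum_eq_zero fun g hg => Finset.sum_eq_zero fun h hh => ?_
      rw [phi_of_le (by linarith [hrm g hg, hrm h hh]), zero_mul]
    rw [hP, phi_of_le hcase]
    rcases le_or_gt (L + m) 1 with h | h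
    · have hE : E = ∅ := by
        rw [Finset.eq_empty_iff_forall_notMem]
        intro g hg
        linarith [hu g hg, hrm g hg]
      rw [phi_of_le h, hE]
      simp only [Finset.sum_empty]
      have h1 : phi (L + L) ≤ 1 / 2 := phi_le_half (by linarith)
      have h2 := phi_nonneg (L + L)
      nlinarith [sq_nonneg ξ]
    · have hB' := caseB hD hξ hcase h hL1
      have h1 : 2 * U - (L - m) * Tφ ≤ (2 - (L + m)) * (2 - (L - m) / (L + m)) := by
        have hs : 0 < L + m := by linarith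
        have a1 : U / (L + m) ≤ Tφ := by rw [div_le_iff₀ hs]; linarith
        have a2 := mul_le_mul_of_nonneg_left a1 (sub_nonneg.mpr hD)
        have a3 : U ≤ 2 - (L + m) := by linarith
        have a4 : 0 ≤ 2 - (L - m) / (L + m) := by
          have : (L - m) / (L + m) ≤ 1 := by rw [div_le_one hs]; linarith
          linarith
        have a5 := mul_le_mul_of_nonneg_right a3 a4
        have a6 : U * (2 - (L - m) / (L + m)) = 2 * U - (L - m) * (U / (L + m)) := by ring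
        linarith
      linarith
  · -- case A
    have hPU := PU_le hD hξ (show 1 / 2 ≤ m by linarith)
    set Ξ := (L - m) ^ 2 / (2 * L * (L + m)) with hΞ
    have hmpos : 0 < m := by linarith
    have hLpos : 0 < L := by linarith
    by_cases hall : ∀ g ∈ E, ∀ h ∈ E, phi (r g + r h) = 0
    · have hP := pairs_le E w β o r (z := z) (τ := τ) (b := b) (L := L) (m := m) (Φ := 0)
        hβ ho hb hD hm1 hB hW hr hrm
        (fun g hg => by rw [Finset.sum_eq_zero fun h hh => hall g hg h hh]) le_rfl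
        (by positivity)
      have key : Ξ ≤ δ + (L - m) * Tφ := by
        have h1 : (L - m) * U ≤ (L - m) * ((L + m) * Tφ) :=
          mul_le_mul_of_nonneg_left hφU (sub_nonneg.mpr hD)
        have h2 : (L - m) - δ ≤ U := by rw [hδ]; linarith
        have h3 := mul_le_mul_of_nonneg_left h2 (sub_nonneg.mpr hD)
        have h6 : (L - m) * δ ≤ (L + m) * δ := mul_le_mul_of_nonneg_right (by linarith) hδ0
        have h4 : (L - m) ^ 2 ≤ (δ + (L - m) * Tφ) * (L + m) := by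
          have e1 : (L - m) ^ 2 = (L - m) * ((L - m) - δ) + (L - m) * δ := by ring
          have e2 : (δ + (L - m) * Tφ) * (L + m)
              = (L + m) * δ + (L - m) * ((L + m) * Tφ) := by ring
          rw [e1, e2]; linarith
        have h5 : 0 ≤ (δ + (L - m) * Tφ) * (L + m) := le_trans (sq_nonneg _) h4
        rw [hΞ, div_le_iff₀ (by positivity)]
        have h7 := mul_le_mul_of_nonneg_right (show 1 ≤ 2 * L by linarith) h5
        have e3 : (δ + (L - m) * Tφ) * (2 * L * (L + m))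
            = 2 * L * ((δ + (L - m) * Tφ) * (L + m)) := by ring
        rw [e3]; linarith
      linarith
    · push_neg at hall
      obtain ⟨g₀, hg₀, h₀, hh₀, hne⟩ := hall
      have hpos₀ : 0 < phi (r g₀ + r h₀) := lt_of_le_of_ne (phi_nonneg _) (Ne.symm hne)
      obtain ⟨g₁, hg₁, hmax⟩ := Finset.exists_max_image E
        (fun g => ∑ h ∈ E, phi (r g + r h)) ⟨g₀, hg₀⟩
      set Φ := ∑ h ∈ E, phi (r g₁ + r h) with hΦ
      have hΦpos : 0 < Φ := by
        refine lt_of_lt_of_le ?_ (hmax g₀ hg₀)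
        exact lt_of_lt_of_le hpos₀ (Finset.single_le_sum (f := fun h => phi (r g₀ + r h))
          (fun h _ => phi_nonneg _) hh₀)
      have hΦk : Φ ≤ E.card / 2 := by
        have : Φ ≤ ∑ _h ∈ E, (1 / 2 : ℝ) := Finset.sum_le_sum fun h hh =>
          phi_le_half (by linarith [hrm g₁ hg₁, hrm h hh])
        rw [Finset.sum_const, nsmul_eq_mul] at this
        linarith
      have hP := pairs_le E w β o r (z := z) (τ := τ) (b := b) (L := L) (m := m) (Φ := Φ)
        hβ ho hb hD hm1 hB hW hr hrm hmax hΦpos.le hΦk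
      have hρ : 1 < r g₁ + m := by
        by_contra hcon
        push_neg at hcon
        have : Φ = 0 := Finset.sum_eq_zero fun h hh => phi_of_le (by linarith [hrm h hh])
        linarith
      have hsl := slack hD (show 1 / 2 ≤ m by linarith) (hrm g₁ hg₁) hρ
      have hsum : Φ + (L - m) / (2 * L * (L + m)) ≤ Tφ := by
        rw [hΦ, hTφ, ← Finset.add_sum_erase E _ hg₁, ← Finset.add_sum_erase E _ hg₁]
        have : ∑ h ∈ E.erase g₁, phi (r g₁ + r h) ≤ ∑ h ∈ E.erase g₁, phi (L + r h) :=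
          Finset.sum_le_sum fun h _ => phi_mono (by linarith [hrm g₁ hg₁])
        linarith
      have hΞ' : Ξ = (L - m) * ((L - m) / (2 * L * (L + m))) := by rw [hΞ]; ring
      have h8 := mul_le_mul_of_nonneg_left hsum (sub_nonneg.mpr hD)
      rw [mul_add, ← hΞ'] at h8
      linarith

end Pool.Agent.H48.LW
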